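import Pool.Agent.KS6_52.SQ.Crit

set_option autoImplicit false

/-!
# Goldbach representations of several numbers with a common short summand, at `a u` and `c / u`, or at Fibonacci numbers
modulo `p`

For EVERY `k` large even integers `2 n_1, ..., 2 n_k` without local obstruction, of the same order of magnitude, we
consider the COMMON summands `y`, that is `√(2 n_i) < y < 4 √(2 n_i)`, `y ≠ 2 n_i - y` for all `i`, and all the numbers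
`y`, `2 n_1 - y, ..., 2 n_k - y` have at most `R` prime factors, all larger than `p^κ`.  Here `y = m + x`, the interval
`(m, m + p)`, `p` a prime, `m ≤ p^B`, is in all the windows, and `x` is in `[0, p)`.
The pairs of residues `x_0`,
`x_1` below both give common summands and are in given intervals `[A_j, A_j + N_j)` of
`[0, p)`, for at least a constant times the expected number `N_0 N_1 t p^(-2) (log p)^(-2 (k + 1))` of

1. the points `x_k`, `k < t`, of the orbit `x_(k+1) = M x_k` of a matrix `M` of determinant one and order `t` modulo `p`;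
2. the pairs `(a u, c / u)`, `u` in a subgroup of order `t` of the multiplicative group modulo `p`;
3. the pairs `(F_n, F_(n+1))` of consecutive Fibonacci numbers modulo `p`, `t` their period,

as soon as `(N_0 N_1)⁴ t³ ≥ p^(10 + ε)`; for whole intervals this is `t ≥ p^(2/3 + ε')`.  These follow from a general
theorem: if `Ω` is mapped onto itself by affine maps such that every nonzero functional has at least `T` images under
products of the linear parts, and `E` is the additive energy of `Ω`, the condition is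
`(∏ N_j)⁴ |Ω|⁴ T ≥ p^(5 r + ε) E`.

Proof (`Pool.Agent.KS6_52.RG`, `Pool.Agent.KS6_52.SQ`): the orbits lie on nondegenerate conics and have energy at most
`3 t²`; the modulus of the Fourier transform is constant on the orbits of the functionals, and the fourth moment bounds
it.  The rest is the fundamental lemma of the sieve for vectors of integers in the form of the starting library
(`Pool.Agent.Q46.SL`, `Pool.Agent.Q20.RG.primeC`).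
-/

namespace Pool.Agent.Results.MP_b58c63_nt.CommonSummandsAtInverses

open Finset Matrix Polynomial
open Pool.Agent.Q46.SL hiding Almost

/-- `n` is not zero and has at most `R` prime factors (counted with multiplicity), all larger than `z` -/
def Almost (z : ℝ) (R : ℕ) (n : ℤ) : Prop :=
  n ≠ 0 ∧ n.natAbs.primeFactorsList.length ≤ R ∧ ∀ q : ℕ, q.Prime → (q : ℤ) ∣ n → z < q

/-- `y` is between `√(2 n)` and `4 √(2 n)` and different from `2 n - y` -/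
def InWindow (n : ℕ) (y : ℤ) : Prop := 0 < y ∧ 2 * (n : ℤ) < y ^ 2 ∧ y ^ 2 < 16 * (2 * n) ∧ y ≠ 2 * n - y

/-- `y` is in the windows of all the numbers `2 n i`, and `y` and all `2 n i - y` have at most `R` prime factors, all
larger than `z` -/
def Common {k : ℕ} (n : Fin k → ℕ) (z : ℝ) (R : ℕ) (y : ℤ) : Prop :=
  Almost z R y ∧ ∀ i, InWindow (n i) y ∧ Almost z R (2 * n i - y)

/-- for every prime `q` there is an `a` such that none of `a`, `2 n i - a` is divisible by `q` -/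
def Unobstructed {k : ℕ} (n : Fin k → ℕ) : Prop :=
  ∀ q : ℕ, q.Prime → ∃ a : ℤ, ¬ (q : ℤ) ∣ a ∧ ∀ i, ¬ (q : ℤ) ∣ 2 * n i - a

/-- the intervals `[A j, A j + N j)` are in `[0, p)` and have length at least `p ^ ε` -/
def Boxes {r : ℕ} (ε : ℝ) (p : ℕ) (A N : Fin r → ℕ) : Prop := ∀ j, A j + N j ≤ p ∧ (p : ℝ) ^ ε ≤ N j

/-- `n` is in the `j`-th interval and has the property `P` -/
def Hit {r : ℕ} (P : ℕ → Prop) (A N : Fin r → ℕ) (j : Fin r) (n : ℕ) : Prop :=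
  (A j ≤ n ∧ n < A j + N j) ∧ P n

/-- every set of row vectors which contains a nonzero vector and is closed under `h ↦ h M`, `(M, b) ∈ Γ`, has at least
`T` elements -/
def LargeOrbits {p r : ℕ} (Γ : Set (Matrix (Fin r) (Fin r) (ZMod p) × (Fin r → ZMod p))) (T : ℝ) : Prop :=
  ∀ H : Finset (Fin r → ZMod p), (∃ h ∈ H, h ≠ 0) → (∀ γ ∈ Γ, ∀ h ∈ H, h ᵥ* γ.1 ∈ H) → T ≤ H.card

/-- the additive energy: the number of `(u, v, w, z)` in `Ω⁴` with `u + v = w + z` -/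
def energy {p r : ℕ} (Ω : Finset (Fin r → ZMod p)) : ℕ :=
  (((Ω ×ˢ Ω) ×ˢ (Ω ×ˢ Ω)).filter fun q => q.1.1 + q.1.2 = q.2.1 + q.2.2).card

/-- the polynomials -/
noncomputable def sys {k : ℕ} (n : Fin k → ℕ) (hu : Unobstructed n) (m : ℕ) : PE (k + 1) 0 (k + 1) where
  f := Fin.cons (C (m : ℤ) + X) (fun i => C (2 * (n i : ℤ) - m) - X)
  E := fun _ => ∅
  deg := by
    rw [Fin.sum_univ_succ]
    simp only [Fin.cons_zero, Fin.cons_succ]
    have d0 : (C (m : ℤ) + X : ℤ[X]).natDegree ≤ 1 := by compute_degree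
    have d1 : ∑ i, (C (2 * (n i : ℤ) - m) - X : ℤ[X]).natDegree ≤ ∑ _i : Fin k, 1 :=
      sum_le_sum fun i _ => by compute_degree
    rw [sum_const, card_univ, Fintype.card_fin, smul_eq_mul, mul_one] at d1
    omega
  adm := by
    intro q hq
    obtain ⟨a0, h0, h1⟩ := hu q hq
    have hq0 : (0 : ℤ) < q := by exact_mod_cast hq.pos
    obtain ⟨a, ha⟩ : ∃ a : ℕ, (a : ℤ) = (a0 - m) % q :=
      ⟨((a0 - m) % q).toNat, Int.toNat_of_nonneg (Int.emod_nonneg _ hq0.ne')⟩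
    have haq : a < q := by
      have := Int.emod_lt_of_pos (a0 - m) hq0
      omega
    have hd : (q : ℤ) ∣ a0 - (m + a) := by
      have h1 := Int.dvd_sub_self_of_emod_eq ha.symm
      have e1 : a0 - ((m : ℤ) + a) = -((a : ℤ) - (a0 - m)) := by ring
      rw [e1]
      exact (dvd_neg).2 h1
    refine ⟨by simp, a, haq, by simp, fun j => ?_⟩
    refine Fin.cases ?_ (fun i => ?_) j
    · simp only [Fin.cons_zero, eval_add, eval_C, eval_X]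
      intro h
      apply h0
      have := dvd_add hd h
      rwa [sub_add_cancel] at this
    · simp only [Fin.cons_succ, eval_sub, eval_C, eval_X]
      intro h
      apply h1 i
      have := dvd_sub h hd
      have e : 2 * (n i : ℤ) - m - a - (a0 - (m + a)) = 2 * (n i : ℤ) - a0 := by ring
      rwa [e] at this

lemma common_of (B k p : ℕ) (n : Fin k → ℕ) (m : ℕ) (hp2 : 64 ≤ p) (hu : Unobstructed n)
    (hm : ∀ i, 2 * n i ≤ m ^ 2) (hmp : ∀ i, (m + p) ^ 2 ≤ 16 * (2 * n i)) (hmB : (m : ℝ) ≤ (p : ℝ) ^ B)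
    (κ : ℝ) (x : ℕ) (hx : x < p) (h : Near (2 * B + 4) (sys n hu m) κ p x) :
    Common n ((p : ℝ) ^ κ) ⌊(((2 * B + 4 : ℕ) : ℝ) + ((k + 1 : ℕ) : ℝ) + 1) / κ⌋₊ ((m : ℤ) + x) := by
  obtain ⟨h0, h12⟩ := h
  have hp2' : (64 : ℝ) ≤ p := by exact_mod_cast hp2
  have hP1 : (1 : ℝ) ≤ (p : ℝ) ^ B := one_le_pow₀ (by linarith)
  have hm0 : (0 : ℝ) ≤ m := Nat.cast_nonneg m
  have hbig : 64 * ((p : ℝ) ^ B) ^ 2 ≤ (p : ℝ) ^ (2 * B + 4) := by
    rw [pow_add, mul_comm 2 B, pow_mul]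
    have e1 : (64 : ℝ) ≤ (p : ℝ) ^ 4 := by
      calc (64 : ℝ) ≤ 64 ^ 4 := by norm_num
        _ ≤ _ := pow_le_pow_left₀ (by norm_num) hp2' 4
    nlinarith [sq_nonneg ((p : ℝ) ^ B)]
  have hPP : (p : ℝ) ^ B ≤ ((p : ℝ) ^ B) ^ 2 := by nlinarith
  have hmm : (m : ℝ) ^ 2 ≤ ((p : ℝ) ^ B) ^ 2 := pow_le_pow_left₀ hm0 hmB 2
  obtain ⟨h1, -⟩ := h12 (by
    intro j
    refine Fin.cases ?_ (fun i => ?_) j
    · change ∀ i, |(((C (m : ℤ) + X : ℤ[X]).coeff i : ℤ) : ℝ)| ≤ _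
      refine cb_mono (cb_add (cb_C _) cb_X) ?_
      push_cast
      rw [abs_of_nonneg hm0]
      linarith
    · change ∀ l, |(((C (2 * (n i : ℤ) - m) - X : ℤ[X]).coeff l : ℤ) : ℝ)| ≤ _
      refine cb_mono (cb_sub (cb_C _) cb_X) ?_
      push_cast
      have hni : (2 : ℝ) * n i ≤ (m : ℝ) ^ 2 := by exact_mod_cast hm i
      have hn0 : (0 : ℝ) ≤ n i := Nat.cast_nonneg _
      have e3 : |2 * (n i : ℝ) - m| ≤ 2 * n i + m := by
        rw [abs_le]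
        constructor <;> linarith
      linarith) (by exact_mod_cast hx.le)
  have hx0 : (0 : ℤ) < x := by exact_mod_cast h0
  have hx0' : 0 < x := by exact_mod_cast h0
  refine ⟨?_, fun i => ⟨?_, ?_⟩⟩
  · have := h1 0
    simpa [sys, Almost, Pool.Agent.Q46.SL.Almost] using this
  · have hy1 : 2 * n i < (m + x) ^ 2 := lt_of_le_of_lt (hm i) (Nat.pow_lt_pow_left (by omega) two_ne_zero)
    have hy2 : (m + x) ^ 2 < 16 * (2 * n i) :=
      lt_of_lt_of_le (Nat.pow_lt_pow_left (by omega : m + x < m + p) two_ne_zero) (hmp i)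
    have hn128 : 64 < 2 * n i := by
      have h3 : 64 ^ 2 ≤ (m + p) ^ 2 := Nat.pow_le_pow_left (by omega) 2
      have h4 := hmp i
      omega
    have hy3 : m + x < n i := by
      by_contra hcon
      push Not at hcon
      have h3 : n i ^ 2 ≤ (m + x) ^ 2 := Nat.pow_le_pow_left hcon 2
      have h4 : n i ^ 2 < 32 * n i := by omega
      have h5 : 32 * n i ≤ n i ^ 2 := by
        rw [sq]
        exact Nat.mul_le_mul_right _ (by omega)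
      omega
    exact ⟨by omega, by exact_mod_cast hy1, by exact_mod_cast hy2, by omega⟩
  · have := h1 i.succ
    rw [show 2 * (n i : ℤ) - (m + x) = 2 * (n i : ℤ) - m - x by ring]
    simpa [sys, Almost, Pool.Agent.Q46.SL.Almost] using this

/-- **Common summands of Goldbach representations at orbits of matrices of determinant one, elements of subgroups and
their inverses, and consecutive Fibonacci numbers.**

`p` is a large prime, `m ≤ p ^ B`, `√(2 n i) ≤ m`, `m + p ≤ 4 √(2 n i)` for all `i`. -/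
theorem result (B k : ℕ) :
    (∀ r : ℕ, ∀ ε : ℝ, 0 < ε → ε ≤ 1 → ∃ κ : ℝ, 0 < κ ∧ ∃ cc : ℝ, 0 < cc ∧ ∃ R p₀ : ℕ,
      ∀ p : ℕ, p₀ ≤ p → ∀ [Fact p.Prime], ∀ (n : Fin k → ℕ) (m : ℕ), Unobstructed n →
      (∀ i, 2 * n i ≤ m ^ 2) → (∀ i, (m + p) ^ 2 ≤ 16 * (2 * n i)) → (m : ℝ) ≤ (p : ℝ) ^ B →
      ∀ (Γ : Set (Matrix (Fin r) (Fin r) (ZMod p) × (Fin r → ZMod p))) (T : ℝ), LargeOrbits Γ T →
      ∀ Ω : Finset (Fin r → ZMod p), (∀ γ ∈ Γ, Set.BijOn (fun v => γ.1 *ᵥ v + γ.2) Ω Ω) →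
      ∀ A N : Fin r → ℕ, Boxes ε p A N →
        (p : ℝ) ^ (5 * (r : ℝ) + ε) * energy Ω ≤ ((∏ j, (N j : ℝ)) * Ω.card) ^ 4 * T →
        ∃ G : Finset (Fin r → ZMod p),
          cc * ((∏ j, (N j : ℝ)) * Ω.card / (p : ℝ) ^ r) / Real.log p ^ ((k + 1) * r) ≤ G.card ∧
          ∀ v ∈ G, v ∈ Ω ∧ ∀ j, Hit (fun x => Common n ((p : ℝ) ^ κ) R (m + x)) A N j (v j).val) ∧
    (∀ ε : ℝ, 0 < ε → ε ≤ 1 → ∃ κ : ℝ, 0 < κ ∧ ∃ cc : ℝ, 0 < cc ∧ ∃ R p₀ : ℕ,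
      ∀ p : ℕ, p₀ ≤ p → ∀ [Fact p.Prime], ∀ (n : Fin k → ℕ) (m : ℕ), Unobstructed n →
      (∀ i, 2 * n i ≤ m ^ 2) → (∀ i, (m + p) ^ 2 ≤ 16 * (2 * n i)) → (m : ℝ) ≤ (p : ℝ) ^ B →
      ∀ M : Matrix (Fin 2) (Fin 2) (ZMod p), M.det = 1 → M.trace ^ 2 ≠ 4 →
      ∀ x : ℕ → Fin 2 → ZMod p, (∀ i, x (i + 1) = M *ᵥ x i) → x 0 0 * x 1 1 ≠ x 0 1 * x 1 0 →
      ∀ A N : Fin 2 → ℕ, Boxes ε p A N →
        (p : ℝ) ^ (10 + ε) ≤ (∏ j, (N j : ℝ)) ^ 4 * (orderOf M : ℝ) ^ 3 →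
        ∃ G : Finset ℕ, cc * ((∏ j, (N j : ℝ)) * orderOf M / (p : ℝ) ^ 2) / Real.log p ^ (2 * (k + 1)) ≤ G.card ∧
          ∀ i ∈ G, i < orderOf M ∧ ∀ j, Hit (fun x => Common n ((p : ℝ) ^ κ) R (m + x)) A N j (x i j).val) ∧
    (∀ ε : ℝ, 0 < ε → ε ≤ 1 → ∃ κ : ℝ, 0 < κ ∧ ∃ cc : ℝ, 0 < cc ∧ ∃ R p₀ : ℕ,
      ∀ p : ℕ, p₀ ≤ p → ∀ [Fact p.Prime], ∀ (n : Fin k → ℕ) (m : ℕ), Unobstructed n →
      (∀ i, 2 * n i ≤ m ^ 2) → (∀ i, (m + p) ^ 2 ≤ 16 * (2 * n i)) → (m : ℝ) ≤ (p : ℝ) ^ B →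
      ∀ (H : Subgroup (ZMod p)ˣ) (a c : (ZMod p)ˣ) (A N : Fin 2 → ℕ), Boxes ε p A N →
        (p : ℝ) ^ (10 + ε) ≤ (∏ j, (N j : ℝ)) ^ 4 * (Nat.card H : ℝ) ^ 3 →
        ∃ G : Finset (ZMod p)ˣ, cc * ((∏ j, (N j : ℝ)) * Nat.card H / (p : ℝ) ^ 2) / Real.log p ^ (2 * (k + 1)) ≤ G.card ∧
          ∀ u ∈ G, u ∈ H ∧ Hit (fun x => Common n ((p : ℝ) ^ κ) R (m + x)) A N 0 ((a * u : (ZMod p)ˣ) : ZMod p).val ∧
            Hit (fun x => Common n ((p : ℝ) ^ κ) R (m + x)) A N 1 ((c * u⁻¹ : (ZMod p)ˣ) : ZMod p).val) ∧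
    (∀ ε : ℝ, 0 < ε → ε ≤ 1 → ∃ κ : ℝ, 0 < κ ∧ ∃ cc : ℝ, 0 < cc ∧ ∃ R p₀ : ℕ,
      ∀ p : ℕ, p₀ ≤ p → p.Prime → ∀ (n : Fin k → ℕ) (m : ℕ), Unobstructed n →
      (∀ i, 2 * n i ≤ m ^ 2) → (∀ i, (m + p) ^ 2 ≤ 16 * (2 * n i)) → (m : ℝ) ≤ (p : ℝ) ^ B →
      ∀ t : ℕ, IsLeast {m : ℕ | 0 < m ∧ p ∣ Nat.fib m ∧ Nat.fib (m + 1) ≡ 1 [MOD p]} t →
      ∀ A N : Fin 2 → ℕ, Boxes ε p A N → (p : ℝ) ^ (10 + ε) ≤ (∏ j, (N j : ℝ)) ^ 4 * (t : ℝ) ^ 3 →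
        ∃ G : Finset ℕ, cc * ((∏ j, (N j : ℝ)) * t / (p : ℝ) ^ 2) / Real.log p ^ (2 * (k + 1)) ≤ G.card ∧
          ∀ i ∈ G, i < 2 * t ∧ Hit (fun x => Common n ((p : ℝ) ^ κ) R (m + x)) A N 0 (Nat.fib i % p) ∧
            Hit (fun x => Common n ((p : ℝ) ^ κ) R (m + x)) A N 1 (Nat.fib (i + 1) % p)) := by
  have hlg : ∀ (a p s : ℕ) (t : ℝ), t * lg (0 + (k + 1)) a p ≤ (s : ℝ) →
      t / Real.log p ^ ((k + 1) * a) ≤ s := by
    intro a p s t h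
    rwa [lg, mul_one_div, zero_add] at h
  have hlg2 : ∀ (p s : ℕ) (t : ℝ), t * lg (0 + (k + 1)) 2 p ≤ (s : ℝ) →
      t / Real.log p ^ (2 * (k + 1)) ≤ s := by
    intro p s t h
    rwa [lg, mul_one_div, zero_add, mul_comm (k + 1) 2] at h
  refine ⟨?_, ?_, ?_, ?_⟩
  · intro r ε h0 h1
    obtain ⟨κ, hκ, cc, hcc, p₀, h⟩ := Pool.Agent.KS6_52.SQ.invC
      (Near (2 * B + 4) : PE (k + 1) 0 (k + 1) → ℝ → ℝ → ℤ → Prop) (lg (0 + (k + 1)) r) r (csN (k + 1) 0 (k + 1) (2 * B + 4) r) ε h0 h1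
    refine ⟨κ, hκ, cc, hcc, ⌊(((2 * B + 4 : ℕ) : ℝ) + ((k + 1 : ℕ) : ℝ) + 1) / κ⌋₊, max p₀ 64, ?_⟩
    intro p hp _ n m hu hm hmp hmB Γ T hT Ω hΩ A N hAN hW
    obtain ⟨G, g1, g2⟩ := h p ((le_max_left _ _).trans hp) (sys n hu m) (fun x => Common n ((p : ℝ) ^ κ) _ (m + x))
      (fun x hx hnear => common_of B k p n m ((le_max_right _ _).trans hp) hu hm hmp hmB κ x hx hnear) Γ T hT Ω hΩ A N hAN hW
    exact ⟨G, hlg _ _ _ _ g1, g2⟩
  · intro ε h0 h1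
    obtain ⟨κ, hκ, cc, hcc, p₀, h⟩ := Pool.Agent.KS6_52.SQ.sl2C
      (Near (2 * B + 4) : PE (k + 1) 0 (k + 1) → ℝ → ℝ → ℤ → Prop) (lg (0 + (k + 1)) 2) (csN (k + 1) 0 (k + 1) (2 * B + 4) 2) ε h0 h1
    refine ⟨κ, hκ, cc, hcc, ⌊(((2 * B + 4 : ℕ) : ℝ) + ((k + 1 : ℕ) : ℝ) + 1) / κ⌋₊, max p₀ 64, ?_⟩
    intro p hp _ n m hu hm hmp hmB M hM htr x hx hx0 A N hAN hW
    obtain ⟨G, g1, g2⟩ := (h p ((le_max_left _ _).trans hp)).2 (sys n hu m) (fun x => Common n ((p : ℝ) ^ κ) _ (m + x))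
      (fun x hx hnear => common_of B k p n m ((le_max_right _ _).trans hp) hu hm hmp hmB κ x hx hnear) M hM htr x hx hx0 A N hAN hW
    exact ⟨G, hlg2 _ _ _ g1, g2⟩
  · intro ε h0 h1
    obtain ⟨κ, hκ, cc, hcc, p₀, h⟩ := Pool.Agent.KS6_52.SQ.inversesC
      (Near (2 * B + 4) : PE (k + 1) 0 (k + 1) → ℝ → ℝ → ℤ → Prop) (lg (0 + (k + 1)) 2) (csN (k + 1) 0 (k + 1) (2 * B + 4) 2) ε h0 h1
    refine ⟨κ, hκ, cc, hcc, ⌊(((2 * B + 4 : ℕ) : ℝ) + ((k + 1 : ℕ) : ℝ) + 1) / κ⌋₊, max p₀ 64, ?_⟩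
    intro p hp _ n m hu hm hmp hmB H a c A N hAN hW
    obtain ⟨G, g1, g2⟩ := h p ((le_max_left _ _).trans hp) (sys n hu m) (fun x => Common n ((p : ℝ) ^ κ) _ (m + x))
      (fun x hx hnear => common_of B k p n m ((le_max_right _ _).trans hp) hu hm hmp hmB κ x hx hnear) H a c A N hAN hW
    refine ⟨G, hlg2 _ _ _ g1, fun u hu => ?_⟩
    obtain ⟨h2, h3, h4, h5, h6⟩ := g2 u hu
    exact ⟨h2, ⟨h3, h5⟩, ⟨h4, h6⟩⟩
  · intro ε h0 h1
    obtain ⟨κ, hκ, cc, hcc, p₀, h⟩ := Pool.Agent.KS6_52.SQ.fibonacciC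
      (Near (2 * B + 4) : PE (k + 1) 0 (k + 1) → ℝ → ℝ → ℤ → Prop) (lg (0 + (k + 1)) 2) (csN (k + 1) 0 (k + 1) (2 * B + 4) 2) ε h0 h1
    refine ⟨κ, hκ, cc, hcc, ⌊(((2 * B + 4 : ℕ) : ℝ) + ((k + 1 : ℕ) : ℝ) + 1) / κ⌋₊, max p₀ 64, ?_⟩
    intro p hp hpp n m hu hm hmp hmB t hlt A N hAN hW
    obtain ⟨G, g1, g2⟩ := h p ((le_max_left _ _).trans hp) hpp (sys n hu m) (fun x => Common n ((p : ℝ) ^ κ) _ (m + x))
      (fun x hx hnear => common_of B k p n m ((le_max_right _ _).trans hp) hu hm hmp hmB κ x hx hnear) t hlt A N hAN hW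
    refine ⟨G, hlg2 _ _ _ g1, fun n hn => ?_⟩
    obtain ⟨h2, h3, h4, h5, h6⟩ := g2 n hn
    exact ⟨h2, ⟨h3, h5⟩, ⟨h4, h6⟩⟩

end Pool.Agent.Results.MP_b58c63_nt.CommonSummandsAtInverses
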