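import Pool.Agent.KS6_51.INVC.Fam

set_option autoImplicit false

/-!
# Goldbach representations of several numbers with a common short summand, at the coordinates of the points of invariant
sets modulo `p`

For EVERY `k` large even integers `2 n_1, ..., 2 n_k` without local obstruction, of the same order of magnitude, we
consider the COMMON summands `y`, that is `√(2 n_i) < y < 4 √(2 n_i)`, `y ≠ 2 n_i - y` for all `i`, and all the numbers
`y`, `2 n_1 - y, ..., 2 n_k - y` have at most `R` prime factors, all larger than `p^κ`.  Here `y = m + x`, the interval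
`(m, m + p)`, `p` a prime, `m ≤ p^B`, is in all the windows, and `x` is in `[0, p)`.
Let `Ω` be an ARBITRARY set of vectors modulo `p` with `r` coordinates which is mapped onto itself by some affine maps,
such that every nonzero linear functional has at least `T` images under (products of) the linear parts.  If
`(∏ N_j)² |Ω| T ≥ p^(3r + ε)` then the number of the vectors in `Ω` with the least residues `x_j` of all `r`
coordinates in given intervals `[A_j, A_j + N_j)`, and such that each of the `r` numbers `y = m + x_j` is a common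
summand, is at least a constant times the expected number `(∏ N_j) |Ω| p^(-r) (log p)^(-(k + 1) r)`.

Three cases: affine groups, in the form above; sets of elements of the field with `p^r` elements which are closed under
the multiplication with a subgroup `U` of its multiplicative group, coordinates with respect to any basis, `T = |U|`;
sets of `d`-dimensional arrays (matrices, tensors) closed under the addition of multiples of slices to slices in the
directions of a set `D`, `T = p^(1 + ∑_{j ∈ D} (s_j - 1))`.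

Proof (`Pool.Agent.KS6_51.INV`, `Pool.Agent.KS6_51.INVC`, by helper51).  The modulus of the Fourier transform of `Ω` is
constant on the orbits of the functionals, and Parseval's identity bounds it.  The rest is the fundamental lemma of the
sieve for vectors of integers in the form of the starting library (`Pool.Agent.Q46.SL`, `Pool.Agent.Q20.RG.primeC`).
-/

namespace Pool.Agent.Results.MP_b58c63_nt.CommonSummandsInvariantSets

open Finset Matrix Module Polynomial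
open Pool.Agent.Q46.SL hiding Almost
open Pool.Agent.KS6_51.INVC hiding Count

/-- `n` is not zero and has at most `R` prime factors (counted with multiplicity), all larger than `z` -/
def Almost (z : ℝ) (R : ℕ) (n : ℤ) : Prop :=
  n ≠ 0 ∧ n.natAbs.primeFactorsList.length ≤ R ∧ ∀ q : ℕ, q.Prime → (q : ℤ) ∣ n → z < q

/-- `y` is between `√(2 n)` and `4 √(2 n)` and different from `2 n - y` -/
def InWindow (n : ℕ) (y : ℤ) : Prop := 0 < y ∧ 2 * (n : ℤ) < y ^ 2 ∧ y ^ 2 < 16 * (2 * n) ∧ y ≠ 2 * n - y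

/-- `y` is in the windows of all the numbers `2 n i`, and `y` and all `2 n i - y` have at most `R` prime factors, all
larger than `z` -/
def Common {k : ℕ} (n : Fin k → ℕ) (z : ℝ) (R : ℕ) (y : ℤ) : Prop :=
  Almost z R y ∧ ∀ i, InWindow (n i) y ∧ Almost z R (2 * n i - y)

/-- for every prime `q` there is an `a` such that none of `a`, `2 n i - a` is divisible by `q` -/
def Unobstructed {k : ℕ} (n : Fin k → ℕ) : Prop :=
  ∀ q : ℕ, q.Prime → ∃ a : ℤ, ¬ (q : ℤ) ∣ a ∧ ∀ i, ¬ (q : ℤ) ∣ 2 * n i - a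

/-- the number of the `v` in `Ω` all of whose coordinates `c v j` have their least residue in `[A j, A j + N j)` and
with the property `P` -/
noncomputable def Count {V J : Type} {p : ℕ} (Ω : Finset V) (c : V → J → ZMod p) (A N : J → ℕ) (P : ℕ → Prop) : ℕ :=
  {v : V | v ∈ Ω ∧ ∀ j, (A j ≤ (c v j).val ∧ (c v j).val < A j + N j) ∧ P (c v j).val}.ncard

/-- the intervals `[A j, A j + N j)` are in `[0, p)` and have length at least `p ^ ε` -/
def Boxes {J : Type} (ε : ℝ) (p : ℕ) (A N : J → ℕ) : Prop := ∀ j, A j + N j ≤ p ∧ (p : ℝ) ^ ε ≤ N j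

/-- every set of row vectors which contains a nonzero vector and is closed under `h ↦ h M`, `(M, b) ∈ Γ`, has at least
`T` elements -/
def LargeOrbits {p r : ℕ} (Γ : Set (Matrix (Fin r) (Fin r) (ZMod p) × (Fin r → ZMod p))) (T : ℝ) : Prop :=
  ∀ H : Finset (Fin r → ZMod p), (∃ h ∈ H, h ≠ 0) → (∀ γ ∈ Γ, ∀ h ∈ H, h ᵥ* γ.1 ∈ H) → T ≤ H.card

/-- the array `X` with `s` times the slice `i j = b` added to the slice `i j = a` -/
def addSlice {p k : ℕ} {n : Fin k → ℕ} (j : Fin k) (a b : Fin (n j)) (s : ZMod p)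
    (X : (∀ j, Fin (n j)) → ZMod p) : (∀ j, Fin (n j)) → ZMod p :=
  fun i => if i j = a then X i + s * X (Function.update i j b) else X i

/-- the polynomials -/
noncomputable def sys {k : ℕ} (n : Fin k → ℕ) (hu : Unobstructed n) (m : ℕ) : PE (k + 1) 0 (k + 1) where
  f := Fin.cons (C (m : ℤ) + X) (fun i => C (2 * (n i : ℤ) - m) - X)
  E := fun _ => ∅
  deg := by
    rw [Fin.sum_univ_succ]
    simp only [Fin.cons_zero, Fin.cons_succ]
    have d0 : (C (m : ℤ) + X : ℤ[X]).natDegree ≤ 1 := by compute_degree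
    have d1 : ∑ i, (C (2 * (n i : ℤ) - m) - X : ℤ[X]).natDegree ≤ ∑ _i : Fin k, 1 :=
      sum_le_sum fun i _ => by compute_degree
    rw [sum_const, card_univ, Fintype.card_fin, smul_eq_mul, mul_one] at d1
    omega
  adm := by
    intro q hq
    obtain ⟨a0, h0, h1⟩ := hu q hq
    have hq0 : (0 : ℤ) < q := by exact_mod_cast hq.pos
    obtain ⟨a, ha⟩ : ∃ a : ℕ, (a : ℤ) = (a0 - m) % q :=
      ⟨((a0 - m) % q).toNat, Int.toNat_of_nonneg (Int.emod_nonneg _ hq0.ne')⟩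
    have haq : a < q := by
      have := Int.emod_lt_of_pos (a0 - m) hq0
      omega
    have hd : (q : ℤ) ∣ a0 - (m + a) := by
      have h1 := Int.dvd_sub_self_of_emod_eq ha.symm
      have e1 : a0 - ((m : ℤ) + a) = -((a : ℤ) - (a0 - m)) := by ring
      rw [e1]
      exact (dvd_neg).2 h1
    refine ⟨by simp, a, haq, by simp, fun j => ?_⟩
    refine Fin.cases ?_ (fun i => ?_) j
    · simp only [Fin.cons_zero, eval_add, eval_C, eval_X]
      intro h
      apply h0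
      have := dvd_add hd h
      rwa [sub_add_cancel] at this
    · simp only [Fin.cons_succ, eval_sub, eval_C, eval_X]
      intro h
      apply h1 i
      have := dvd_sub h hd
      have e : 2 * (n i : ℤ) - m - a - (a0 - (m + a)) = 2 * (n i : ℤ) - a0 := by ring
      rwa [e] at this

lemma common_of (B k p : ℕ) (n : Fin k → ℕ) (m : ℕ) (hp2 : 64 ≤ p) (hu : Unobstructed n)
    (hm : ∀ i, 2 * n i ≤ m ^ 2) (hmp : ∀ i, (m + p) ^ 2 ≤ 16 * (2 * n i)) (hmB : (m : ℝ) ≤ (p : ℝ) ^ B)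
    (κ : ℝ) (x : ℕ) (hx : x < p) (h : Near (2 * B + 4) (sys n hu m) κ p x) :
    Common n ((p : ℝ) ^ κ) ⌊(((2 * B + 4 : ℕ) : ℝ) + ((k + 1 : ℕ) : ℝ) + 1) / κ⌋₊ ((m : ℤ) + x) := by
  obtain ⟨h0, h12⟩ := h
  have hp2' : (64 : ℝ) ≤ p := by exact_mod_cast hp2
  have hP1 : (1 : ℝ) ≤ (p : ℝ) ^ B := one_le_pow₀ (by linarith)
  have hm0 : (0 : ℝ) ≤ m := Nat.cast_nonneg m
  have hbig : 64 * ((p : ℝ) ^ B) ^ 2 ≤ (p : ℝ) ^ (2 * B + 4) := by
    rw [pow_add, mul_comm 2 B, pow_mul]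
    have e1 : (64 : ℝ) ≤ (p : ℝ) ^ 4 := by
      calc (64 : ℝ) ≤ 64 ^ 4 := by norm_num
        _ ≤ _ := pow_le_pow_left₀ (by norm_num) hp2' 4
    nlinarith [sq_nonneg ((p : ℝ) ^ B)]
  have hPP : (p : ℝ) ^ B ≤ ((p : ℝ) ^ B) ^ 2 := by nlinarith
  have hmm : (m : ℝ) ^ 2 ≤ ((p : ℝ) ^ B) ^ 2 := pow_le_pow_left₀ hm0 hmB 2
  obtain ⟨h1, -⟩ := h12 (by
    intro j
    refine Fin.cases ?_ (fun i => ?_) j
    · change ∀ i, |(((C (m : ℤ) + X : ℤ[X]).coeff i : ℤ) : ℝ)| ≤ _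
      refine cb_mono (cb_add (cb_C _) cb_X) ?_
      push_cast
      rw [abs_of_nonneg hm0]
      linarith
    · change ∀ l, |(((C (2 * (n i : ℤ) - m) - X : ℤ[X]).coeff l : ℤ) : ℝ)| ≤ _
      refine cb_mono (cb_sub (cb_C _) cb_X) ?_
      push_cast
      have hni : (2 : ℝ) * n i ≤ (m : ℝ) ^ 2 := by exact_mod_cast hm i
      have hn0 : (0 : ℝ) ≤ n i := Nat.cast_nonneg _
      have e3 : |2 * (n i : ℝ) - m| ≤ 2 * n i + m := by
        rw [abs_le]
        constructor <;> linarith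
      linarith) (by exact_mod_cast hx.le)
  have hx0 : (0 : ℤ) < x := by exact_mod_cast h0
  have hx0' : 0 < x := by exact_mod_cast h0
  refine ⟨?_, fun i => ⟨?_, ?_⟩⟩
  · have := h1 0
    simpa [sys, Almost, Pool.Agent.Q46.SL.Almost] using this
  · have hy1 : 2 * n i < (m + x) ^ 2 := lt_of_le_of_lt (hm i) (Nat.pow_lt_pow_left (by omega) two_ne_zero)
    have hy2 : (m + x) ^ 2 < 16 * (2 * n i) :=
      lt_of_lt_of_le (Nat.pow_lt_pow_left (by omega : m + x < m + p) two_ne_zero) (hmp i)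
    have hn128 : 64 < 2 * n i := by
      have h3 : 64 ^ 2 ≤ (m + p) ^ 2 := Nat.pow_le_pow_left (by omega) 2
      have h4 := hmp i
      omega
    have hy3 : m + x < n i := by
      by_contra hcon
      push Not at hcon
      have h3 : n i ^ 2 ≤ (m + x) ^ 2 := Nat.pow_le_pow_left hcon 2
      have h4 : n i ^ 2 < 32 * n i := by omega
      have h5 : 32 * n i ≤ n i ^ 2 := by
        rw [sq]
        exact Nat.mul_le_mul_right _ (by omega)
      omega
    exact ⟨by omega, by exact_mod_cast hy1, by exact_mod_cast hy2, by omega⟩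
  · have := h1 i.succ
    rw [show 2 * (n i : ℤ) - (m + x) = 2 * (n i : ℤ) - m - x by ring]
    simpa [sys, Almost, Pool.Agent.Q46.SL.Almost] using this

/-- **Common summands of Goldbach representations at invariant sets.**

`p` is a large prime, `m ≤ p ^ B`, `√(2 n i) ≤ m`, `m + p ≤ 4 √(2 n i)` for all `i`.

1. Sets `Ω` of vectors modulo `p` which are mapped onto themselves by the affine maps `v ↦ M v + b`, `(M, b) ∈ Γ`.

2. Sets `Ω` of elements of a field of degree `r` over the prime field, closed under the multiplication with the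
elements of a subgroup `U` of the multiplicative group; coordinates with respect to a basis.

3. Sets `Ω` of arrays of the format `s 0 × ... × s (d - 1)`, closed under the addition of multiples of slices to other
slices in the directions of `D`. -/
theorem result (B k : ℕ) :
    (∀ r : ℕ, ∀ ε : ℝ, 0 < ε → ε ≤ 1 → ∃ κ : ℝ, 0 < κ ∧ ∃ cc : ℝ, 0 < cc ∧ ∃ R p₀ : ℕ,
      ∀ p : ℕ, p₀ ≤ p → ∀ [Fact p.Prime], ∀ (n : Fin k → ℕ) (m : ℕ), Unobstructed n →
      (∀ i, 2 * n i ≤ m ^ 2) → (∀ i, (m + p) ^ 2 ≤ 16 * (2 * n i)) → (m : ℝ) ≤ (p : ℝ) ^ B →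
      ∀ (Γ : Set (Matrix (Fin r) (Fin r) (ZMod p) × (Fin r → ZMod p))) (T : ℝ), LargeOrbits Γ T →
      ∀ Ω : Finset (Fin r → ZMod p), (∀ γ ∈ Γ, Set.BijOn (fun v => γ.1 *ᵥ v + γ.2) Ω Ω) →
      ∀ A N : Fin r → ℕ, Boxes ε p A N →
        (p : ℝ) ^ (3 * (r : ℝ) + ε) ≤ (∏ j, (N j : ℝ)) ^ 2 * Ω.card * T →
        cc * ((∏ j, (N j : ℝ)) * Ω.card / (p : ℝ) ^ r) / Real.log p ^ ((k + 1) * r) ≤
          Count Ω (fun v => v) A N (fun x => Common n ((p : ℝ) ^ κ) R (m + x))) ∧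
    (∀ r : ℕ, ∀ ε : ℝ, 0 < ε → ε ≤ 1 → ∃ κ : ℝ, 0 < κ ∧ ∃ cc : ℝ, 0 < cc ∧ ∃ R p₀ : ℕ,
      ∀ p : ℕ, p₀ ≤ p → ∀ [Fact p.Prime], ∀ (n : Fin k → ℕ) (m : ℕ), Unobstructed n →
      (∀ i, 2 * n i ≤ m ^ 2) → (∀ i, (m + p) ^ 2 ≤ 16 * (2 * n i)) → (m : ℝ) ≤ (p : ℝ) ^ B →
      ∀ (F : Type) [Field F] [Algebra (ZMod p) F] (b : Basis (Fin r) (ZMod p) F) (U : Subgroup Fˣ) (Ω : Finset F),
      (∀ u ∈ U, ∀ y ∈ Ω, (u : F) * y ∈ Ω) →
      ∀ A N : Fin r → ℕ, Boxes ε p A N →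
        (p : ℝ) ^ (3 * (r : ℝ) + ε) ≤ (∏ j, (N j : ℝ)) ^ 2 * Ω.card * Nat.card U →
        cc * ((∏ j, (N j : ℝ)) * Ω.card / (p : ℝ) ^ r) / Real.log p ^ ((k + 1) * r) ≤
          Count Ω (fun y j => b.repr y j) A N (fun x => Common n ((p : ℝ) ^ κ) R (m + x))) ∧
    (∀ (d : ℕ) (s : Fin d → ℕ), (∀ j, 1 ≤ s j) → ∀ D : Finset (Fin d), (∃ j ∈ D, 2 ≤ s j) →
      ∀ ε : ℝ, 0 < ε → ε ≤ 1 → ∃ κ : ℝ, 0 < κ ∧ ∃ cc : ℝ, 0 < cc ∧ ∃ R p₀ : ℕ,
      ∀ p : ℕ, p₀ ≤ p → ∀ [Fact p.Prime], ∀ (n : Fin k → ℕ) (m : ℕ), Unobstructed n →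
      (∀ i, 2 * n i ≤ m ^ 2) → (∀ i, (m + p) ^ 2 ≤ 16 * (2 * n i)) → (m : ℝ) ≤ (p : ℝ) ^ B →
      ∀ Ω : Finset ((∀ j, Fin (s j)) → ZMod p),
      (∀ j ∈ D, ∀ a b : Fin (s j), a ≠ b → ∀ c : ZMod p, ∀ X ∈ Ω, addSlice j a b c X ∈ Ω) →
      ∀ A N : (∀ j, Fin (s j)) → ℕ, Boxes ε p A N →
        (p : ℝ) ^ (3 * (∏ j, (s j : ℝ)) - ∑ j ∈ D, ((s j : ℝ) - 1) - 1 + ε) ≤ (∏ i, (N i : ℝ)) ^ 2 * Ω.card →
        cc * ((∏ i, (N i : ℝ)) * Ω.card / (p : ℝ) ^ (∏ j, s j)) / Real.log p ^ ((k + 1) * ∏ j, s j) ≤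
          Count Ω (fun X => X) A N (fun x => Common n ((p : ℝ) ^ κ) R (m + x))) := by
  have hlg : ∀ (a p s : ℕ) (t : ℝ), t * lg (0 + (k + 1)) a p ≤ (s : ℝ) →
      t / Real.log p ^ ((k + 1) * a) ≤ s := by
    intro a p s t h
    rwa [lg, mul_one_div, zero_add] at h
  refine ⟨?_, ?_, ?_⟩
  · intro r ε h0 h1
    obtain ⟨κ, hκ, cc, hcc, p₀, h⟩ := famA (Near (2 * B + 4) : PE (k + 1) 0 (k + 1) → ℝ → ℝ → ℤ → Prop)
      (lg (0 + (k + 1))) (fun r => csN (k + 1) 0 (k + 1) (2 * B + 4) r) r ε h0 h1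
    refine ⟨κ, hκ, cc, hcc, ⌊(((2 * B + 4 : ℕ) : ℝ) + ((k + 1 : ℕ) : ℝ) + 1) / κ⌋₊, max p₀ 64, ?_⟩
    intro p hp _ n m hu hm hmp hmB Γ T hT Ω hΩ A N hAN hW
    exact hlg _ _ _ _ (h p ((le_max_left _ _).trans hp) (sys n hu m) (fun x => Common n ((p : ℝ) ^ κ) _ (m + x))
      (fun x hx hnear => common_of B k p n m ((le_max_right _ _).trans hp) hu hm hmp hmB κ x hx hnear) Γ T hT Ω hΩ A N hAN hW)
  · intro r ε h0 h1
    obtain ⟨κ, hκ, cc, hcc, p₀, h⟩ := famF (Near (2 * B + 4) : PE (k + 1) 0 (k + 1) → ℝ → ℝ → ℤ → Prop)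
      (lg (0 + (k + 1))) (fun r => csN (k + 1) 0 (k + 1) (2 * B + 4) r) r ε h0 h1
    refine ⟨κ, hκ, cc, hcc, ⌊(((2 * B + 4 : ℕ) : ℝ) + ((k + 1 : ℕ) : ℝ) + 1) / κ⌋₊, max p₀ 64, ?_⟩
    intro p hp _ n m hu hm hmp hmB F _ _ b U Ω hΩ A N hAN hW
    exact hlg _ _ _ _ (h p ((le_max_left _ _).trans hp) (sys n hu m) (fun x => Common n ((p : ℝ) ^ κ) _ (m + x))
      (fun x hx hnear => common_of B k p n m ((le_max_right _ _).trans hp) hu hm hmp hmB κ x hx hnear) F b U Ω hΩ A N hAN hW)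
  · intro d s hs D hD ε h0 h1
    obtain ⟨κ, hκ, cc, hcc, p₀, h⟩ := famT (Near (2 * B + 4) : PE (k + 1) 0 (k + 1) → ℝ → ℝ → ℤ → Prop)
      (lg (0 + (k + 1))) (fun r => csN (k + 1) 0 (k + 1) (2 * B + 4) r) d s hs D hD ε h0 h1
    refine ⟨κ, hκ, cc, hcc, ⌊(((2 * B + 4 : ℕ) : ℝ) + ((k + 1 : ℕ) : ℝ) + 1) / κ⌋₊, max p₀ 64, ?_⟩
    intro p hp _ n m hu hm hmp hmB Ω hΩ A N hAN hW
    exact hlg _ _ _ _ (h p ((le_max_left _ _).trans hp) (sys n hu m) (fun x => Common n ((p : ℝ) ^ κ) _ (m + x))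
      (fun x hx hnear => common_of B k p n m ((le_max_right _ _).trans hp) hu hm hmp hmB κ x hx hnear) Ω hΩ A N hAN hW)

end Pool.Agent.Results.MP_b58c63_nt.CommonSummandsInvariantSets
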