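import Pool.Agent.KS6_25.CP.P5
import Pool.Agent.KS6_25.CP.P7

/-!
# Goldbach partitions with a Chen prime in `(√(2 n), 4 √(2 n))`

Let `h` be a positive even number. For all but `N / log ^ U N` of the `n ≤ N` the number `2 n` has `≥ c √n / log ^ 3 n`
partitions `2 n = p + q` into different primes with `√(2 n) < p < 4 √(2 n)` for which `p + h` has at most two prime
factors, all of them at least `n ^ (1 / 20)`, unless there is a local obstruction (`3 ∤ h` and `2 n ≡ h (mod 3)`). More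
generally, for all `Y ≥ N ^ (1 / 3 + ρ)` and for almost all vectors `m` of `k` numbers `≤ N`, there are
`≥ c Y / log ^ (k + 2) N` such primes `p` in `(Y, 2 Y]` for which all the numbers `|a i p + m i|` are prime, for all slopes
`|a i| ≤ log ^ D N` for which there is no local obstruction.

Proof. The mean square of the exponential sum with the von Mangoldt function minus its sieve model over the
`N ^ (2 / 3 - ρ)` consecutive frequencies `α + s / (2 N + 1)` is smaller than the trivial bound by any power of `log N`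
(`Pool.Agent.KS6_25.SH.kest`). By duality this allows to replace the primes `a i p + m i` by the sieve model with the
level `log ^ E N`, for almost all `m` and for arbitrary weights at the small numbers `p ≤ 2 Y`
(`Pool.Agent.KS6_25.CP.prod_long`). The weight is the indicator function of the Chen primes, and the resulting
sums over the Chen primes in a sifted set are bounded from below by Chen's theorem inside sifted sets
(`Pool.Agent.KS6_25.CP.model_low`, following `Pool.Agent.KS6_51.CH`).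
-/

set_option autoImplicit false

namespace Pool.Agent.Results.MP_b58c63_nt.ShortChenPrime

open Finset Filter
open Pool.Agent.KS6_25.CP (Ok Bs CL cntW low_long model_chen Bs_sub)

open Classical in
/-- The number of the Goldbach partitions `2 n = p + q` into different primes `p`, `q` with
`√(2 n) < p < 4 √(2 n)`, for which `p + h` has at most two prime factors, counted with multiplicity, all of them at
least `n ^ (1 / 20)`. -/
noncomputable def partitions (h n : ℕ) : ℕ :=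
  ((range (2 * n)).filter (fun p : ℕ => p.Prime ∧ (2 * n - p).Prime ∧ p ≠ 2 * n - p ∧ √(2 * (n : ℝ)) < p ∧
    (p : ℝ) < 4 * √(2 * (n : ℝ)) ∧ (p + h).primeFactorsList.length ≤ 2 ∧
    ∀ q : ℕ, q.Prime → q ∣ p + h → (n : ℝ) ^ (1 / 20 : ℝ) ≤ q)).card

open Classical in
/-- The number of the primes `p` with `Y < p ≤ 2 Y` such that `p + h` has at most two prime factors, counted with
multiplicity, all of them at least `Y ^ (1 / 9)`, and such that all the numbers `|a i p + m i|` are primes. -/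
noncomputable def count (h Y : ℕ) {k : ℕ} (a : Fin k → ℤ) (m : Fin k → ℕ) : ℕ :=
  ((Ioc Y (2 * Y)).filter (fun p : ℕ => p.Prime ∧ (p + h).primeFactorsList.length ≤ 2 ∧
    (∀ q : ℕ, q.Prime → q ∣ p + h → (Y : ℝ) ^ (1 / 9 : ℝ) ≤ q) ∧ ∀ i, (a i * p + m i).natAbs.Prime)).card

/-- There is no local obstruction: no prime divides `r (r + h) ∏ i, (a i r + m i)` for all `r`. -/
def Unobstructed (h : ℕ) {k : ℕ} (a : Fin k → ℤ) (m : Fin k → ℕ) : Prop :=
  ∀ l : ℕ, l.Prime → ∃ r : ℤ, ¬ (l : ℤ) ∣ r ∧ ¬ (l : ℤ) ∣ r + h ∧ ∀ i, ¬ (l : ℤ) ∣ a i * r + m i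

/-- the general form, small `ρ` -/
theorem main (h : ℕ) (hh : 1 ≤ h) (k : ℕ) : ∃ c : ℝ, 0 < c ∧ ∀ (D U : ℕ), ∀ ρ : ℝ, 0 < ρ → ρ ≤ 1 / 4 →
    ∃ N₀ : ℕ, ∀ N : ℕ, N₀ ≤ N → ∀ Y : ℕ, (N : ℝ) ^ (1 / 3 + ρ) ≤ Y → 2 * (Y : ℝ) * Real.log N ^ D ≤ N →
      ∀ 𝒮 : Finset (Fin k → ℕ), 𝒮 ⊆ Fintype.piFinset (fun _ => Icc 1 N) →
      (∀ m ∈ 𝒮, ¬ ∀ a : Fin k → ℤ, (∀ i, a i ≠ 0 ∧ |(a i : ℝ)| ≤ Real.log N ^ D) → Unobstructed h a m →
        c * (Y / Real.log N ^ (k + 2)) ≤ (count h Y a m : ℝ)) →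
      (𝒮.card : ℝ) ≤ (N : ℝ) ^ k / Real.log N ^ U := by
  classical
  obtain ⟨δ, c, hδ, hc, hlow⟩ := model_chen 0 h (by omega) ∅ k
  rw [card_empty, zero_add] at hlow
  refine ⟨c / 2 ^ (k + 1), by positivity, fun D U ρ hρ hρ1 => ?_⟩
  obtain ⟨N₀, h0⟩ := low_long (Bs 0 h ∅ δ) 2 (by norm_num) (Bs_sub 0 h ∅ δ) (fun α β : Fin k → ℤ => Ok 0 h ∅ α β) 2 c hc hlow
    D U hρ hρ1
  refine ⟨N₀, fun N hN Y hY1 hY2 𝒮 hSx hS => ?_⟩
  refine h0 N hN Y hY1 (by push_cast; linarith) 𝒮 hSx (fun m hm hcon => hS m hm fun a ha hu => ?_)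
  have h1 := hcon a (fun l => (ha l).1) (fun l => by rw [Nat.cast_natAbs, Int.cast_abs]; exact (ha l).2) (by
    intro p hp
    obtain ⟨r, r1, r2, r3⟩ := hu p hp
    exact ⟨r, by simpa using r1, r2, fun s hs => absurd hs (Finset.notMem_empty s), r3⟩)
  have e0 : 2 + k = k + 2 := by ring
  rw [e0] at h1
  refine h1.trans ?_
  have h2 : cntW (Bs 0 h ∅ δ Y) a (fun l => (m l : ℤ)) ≤ count h Y a m := by
    unfold cntW count
    apply card_le_card
    intro p hp
    unfold Bs at hp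
    rw [mem_filter, mem_filter] at hp
    rw [mem_filter]
    obtain ⟨⟨h1, h2, h3, h4, -⟩, h5⟩ := hp
    exact ⟨h1, by simpa using h2, h3, h4, h5⟩
  exact_mod_cast h2

theorem unobstructed_one {h n : ℕ} (hh : 2 ∣ h) (h3 : 3 ∣ h ∨ (2 * n) % 3 ≠ h % 3) :
    Unobstructed h (fun _ : Fin 1 => -1) (fun _ => 2 * n) := by
  intro l hl
  have hl2 := hl.two_le
  by_cases e2 : l = 2
  · subst e2
    refine ⟨1, by omega, by omega, fun _ => ?_⟩
    show ¬ ((2 : ℕ) : ℤ) ∣ -1 * 1 + ((2 * n : ℕ) : ℤ)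
    omega
  by_cases e3 : l = 3
  · subst e3
    by_cases e : 3 ∣ h
    · by_cases e' : (2 * n) % 3 = 1
      · refine ⟨2, by omega, by omega, fun _ => ?_⟩
        show ¬ ((3 : ℕ) : ℤ) ∣ -1 * 2 + ((2 * n : ℕ) : ℤ)
        omega
      · refine ⟨1, by omega, by omega, fun _ => ?_⟩
        show ¬ ((3 : ℕ) : ℤ) ∣ -1 * 1 + ((2 * n : ℕ) : ℤ)
        omega
    · refine ⟨h, by omega, by omega, fun _ => ?_⟩
      show ¬ ((3 : ℕ) : ℤ) ∣ -1 * (h : ℤ) + ((2 * n : ℕ) : ℤ)
      omega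
  have h4 : l ≠ 4 := by
    rintro rfl
    exact absurd hl (by norm_num)
  have h5 : 5 ≤ l := by omega
  have small : ∀ d : ℤ, 0 < d → d < 4 → ¬ (l : ℤ) ∣ d := by
    intro d hd0 hd4 hdv
    have := Int.le_of_dvd hd0 hdv
    omega
  by_contra hcon
  push Not at hcon
  have key : ∀ r : ℤ, 0 < r → r < 4 → (l : ℤ) ∣ r + h ∨ (l : ℤ) ∣ -1 * r + ((2 * n : ℕ) : ℤ) := by
    intro r hr0 hr4
    by_cases e : (l : ℤ) ∣ r + h
    · exact Or.inl e
    · obtain ⟨_, hi⟩ := hcon r (small r hr0 hr4) e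
      exact Or.inr hi
  have d1 : ∀ r r' : ℤ, (l : ℤ) ∣ r + h → (l : ℤ) ∣ r' + h → (l : ℤ) ∣ r' - r := by
    intro r r' a b
    have := dvd_sub b a
    have e : r' + h - (r + h) = r' - r := by ring
    rwa [e] at this
  have d2 : ∀ r r' : ℤ, (l : ℤ) ∣ -1 * r + ((2 * n : ℕ) : ℤ) → (l : ℤ) ∣ -1 * r' + ((2 * n : ℕ) : ℤ) → (l : ℤ) ∣ r' - r := by
    intro r r' a b
    have := dvd_sub a b
    have e : -1 * r + ((2 * n : ℕ) : ℤ) - (-1 * r' + ((2 * n : ℕ) : ℤ)) = r' - r := by ring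
    rwa [e] at this
  have n1 := small 1 (by norm_num) (by norm_num)
  have n2 := small 2 (by norm_num) (by norm_num)
  rcases key 1 (by norm_num) (by norm_num) with a1 | a1
  · rcases key 2 (by norm_num) (by norm_num) with a2 | a2
    · exact n1 (by simpa using d1 1 2 a1 a2)
    · rcases key 3 (by norm_num) (by norm_num) with a3 | a3
      · exact n2 (by simpa using d1 1 3 a1 a3)
      · exact n1 (by simpa using d2 2 3 a2 a3)
  · rcases key 2 (by norm_num) (by norm_num) with a2 | a2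
    · rcases key 3 (by norm_num) (by norm_num) with a3 | a3
      · exact n1 (by simpa using d1 2 3 a2 a3)
      · exact n2 (by simpa using d2 1 3 a1 a3)
    · exact n1 (by simpa using d2 1 2 a1 a2)

/-- one dyadic block -/
theorem block (h : ℕ) (hh : 1 ≤ h) (h2 : 2 ∣ h) : ∃ c : ℝ, 0 < c ∧ ∀ U : ℕ, ∃ M₀ : ℕ, ∀ M : ℕ, M₀ ≤ M →
    ∀ S : Finset ℕ, (∀ n ∈ S, M < 2 * n ∧ n ≤ M ∧ (3 ∣ h ∨ (2 * n) % 3 ≠ h % 3) ∧
      ¬ c * (√(n : ℝ) / Real.log n ^ 3) ≤ (partitions h n : ℝ)) →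
    (S.card : ℝ) ≤ 2 * M / Real.log M ^ U := by
  classical
  obtain ⟨c, hc, hmain⟩ := main h hh 1
  refine ⟨c / 8, by positivity, fun U => ?_⟩
  obtain ⟨N₀, h0⟩ := hmain 0 U (1 / 12) (by norm_num) (by norm_num)
  obtain ⟨K, hK⟩ := exists_nat_ge ((100 : ℝ) ^ (180 : ℝ))
  refine ⟨N₀ + K + 200, fun M hM S hS => ?_⟩
  have hM200 : (200 : ℝ) ≤ M := by exact_mod_cast (by omega : 200 ≤ M)
  have hMK : (100 : ℝ) ^ (180 : ℝ) ≤ M := hK.trans (by exact_mod_cast (by omega : K ≤ M))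
  have hM0 : (0 : ℝ) < M := by linarith
  obtain ⟨Y, hY⟩ : ∃ Y : ℕ, Y = Nat.sqrt (2 * M) + 1 := ⟨_, rfl⟩
  obtain ⟨N, hN⟩ : ∃ N : ℕ, N = 2 * M := ⟨_, rfl⟩
  have hNr : (N : ℝ) = 2 * M := by rw [hN]; push_cast; ring
  have hN0 : (0 : ℝ) < N := by rw [hNr]; linarith
  have hs1 : Nat.sqrt (2 * M) ^ 2 ≤ 2 * M := Nat.sqrt_le' _
  have hs2 : 2 * M < Y ^ 2 := by rw [hY]; exact Nat.lt_succ_sqrt' _
  have hYr1 : √(2 * (M : ℝ)) ≤ Y := by
    rw [Real.sqrt_le_left (Nat.cast_nonneg _)]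
    exact_mod_cast hs2.le
  have hYr2 : (Y : ℝ) ≤ √(2 * (M : ℝ)) + 1 := by
    rw [hY]
    push_cast
    have : ((Nat.sqrt (2 * M) : ℕ) : ℝ) ≤ √(2 * (M : ℝ)) := by
      apply Real.le_sqrt_of_sq_le
      exact_mod_cast hs1
    linarith
  have hsq : √(2 * (M : ℝ)) ^ 2 = 2 * M := Real.sq_sqrt (by positivity)
  have hsq20 : 20 ≤ √(2 * (M : ℝ)) := by
    apply Real.le_sqrt_of_sq_le
    linarith
  have hYN : 2 * (Y : ℝ) ≤ N := by rw [hNr]; nlinarith
  have hY1 : (N : ℝ) ^ (1 / 3 + 1 / 12 : ℝ) ≤ Y := by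
    calc (N : ℝ) ^ (1 / 3 + 1 / 12 : ℝ) ≤ (N : ℝ) ^ (1 / 2 : ℝ) :=
          Real.rpow_le_rpow_of_exponent_le (by rw [hNr]; linarith) (by norm_num)
      _ = √(2 * (M : ℝ)) := by rw [← Real.sqrt_eq_rpow, hNr]
      _ ≤ Y := hYr1
  have key := h0 N (by omega) Y hY1 (by rw [pow_zero, mul_one]; exact hYN)
    (S.image (fun n => (fun _ : Fin 1 => 2 * n))) (by
      intro m hm
      rw [mem_image] at hm
      obtain ⟨n, hn, rfl⟩ := hm
      rw [Fintype.mem_piFinset]
      intro _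
      have := hS n hn
      rw [mem_Icc]
      omega) (by
      intro m hm hcon
      rw [mem_image] at hm
      obtain ⟨n, hn, rfl⟩ := hm
      obtain ⟨hn1, hn2, hn3, hn4⟩ := hS n hn
      apply hn4
      have e1 := hcon (fun _ => -1) (fun _ => ⟨by norm_num, by simp⟩) (unobstructed_one h2 hn3)
      have hnr1 : (M : ℝ) ≤ 2 * n := by exact_mod_cast hn1.le
      have hnr2 : (n : ℝ) ≤ M := by exact_mod_cast hn2
      have hn0 : (0 : ℝ) < n := by linarith
      have hlogn : 0 < Real.log n := Real.log_pos (by linarith)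
      have hlogN0 : 0 < Real.log N := Real.log_pos (by rw [hNr]; linarith)
      have hlog : Real.log N ≤ 2 * Real.log n := by
        have e2 : (N : ℝ) ≤ (n : ℝ) ^ 2 := by rw [hNr]; nlinarith
        have e3 := Real.log_le_log hN0 e2
        rw [Real.log_pow] at e3
        exact_mod_cast e3
      have hsn : √(n : ℝ) ≤ √(2 * (M : ℝ)) := Real.sqrt_le_sqrt (by linarith)
      have e4 : c / 8 * (√(n : ℝ) / Real.log n ^ 3) ≤ c * (Y / Real.log N ^ (1 + 2)) := by
        have f1 : Real.log N ^ 3 ≤ 8 * Real.log n ^ 3 := by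
          calc Real.log N ^ 3 ≤ (2 * Real.log n) ^ 3 := pow_le_pow_left₀ hlogN0.le hlog 3
            _ = 8 * Real.log n ^ 3 := by ring
        have f2 : √(n : ℝ) / (8 * Real.log n ^ 3) ≤ Y / Real.log N ^ 3 := by
          apply div_le_div₀ (Nat.cast_nonneg _) (hsn.trans hYr1) (by positivity) f1
        calc c / 8 * (√(n : ℝ) / Real.log n ^ 3) = c * (√(n : ℝ) / (8 * Real.log n ^ 3)) := by
              field_simp
          _ ≤ c * (Y / Real.log N ^ (1 + 2)) := mul_le_mul_of_nonneg_left f2 hc.le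
      refine e4.trans (e1.trans ?_)
      have hle : count h Y (fun _ : Fin 1 => -1) (fun _ => 2 * n) ≤ partitions h n := by
        unfold count partitions
        apply card_le_card
        intro p hp
        rw [mem_filter, mem_Ioc] at hp
        rw [mem_filter, mem_range]
        obtain ⟨⟨g1, g2⟩, g3, g4, g5, g6⟩ := hp
        have g1' : (Y : ℝ) < p := by exact_mod_cast g1
        have g2' : (p : ℝ) ≤ 2 * Y := by exact_mod_cast g2
        have hs2n : √(2 * (n : ℝ)) ≤ √(2 * (M : ℝ)) := Real.sqrt_le_sqrt (by linarith)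
        have hpn : (p : ℝ) < n := by nlinarith
        have hpn' : p < n := by exact_mod_cast hpn
        refine ⟨by omega, g3, ?_, by omega, by linarith, ?_, g4, fun q hq hd => le_trans ?_ (g5 q hq hd)⟩
        · have := g6 0
          have e : (-1 * (p : ℤ) + ((2 * n : ℕ) : ℤ)).natAbs = 2 * n - p := by omega
          rwa [e] at this
        · -- `2 Y < 4 √(2 n)`
          have e5 : √(M : ℝ) ≤ √(2 * (n : ℝ)) := Real.sqrt_le_sqrt hnr1
          have e6 : √(2 * (M : ℝ)) = √2 * √(M : ℝ) := Real.sqrt_mul (by norm_num) _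
          have e7 : √(2 : ℝ) ≤ 1.42 := by
            rw [Real.sqrt_le_left (by norm_num)]
            norm_num
          have e8 : 14 ≤ √(M : ℝ) := by
            apply Real.le_sqrt_of_sq_le
            linarith
          have e9 : √(2 * (M : ℝ)) ≤ 1.42 * √(M : ℝ) := by
            rw [e6]
            exact mul_le_mul_of_nonneg_right e7 (Real.sqrt_nonneg _)
          linarith
        · -- the prime factors
          have hY0 : (0 : ℝ) < Y := by linarith
          have g8 : (n : ℝ) ≤ (Y : ℝ) ^ (2 : ℝ) := by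
            have : (n : ℝ) ≤ (Y : ℝ) ^ (2 : ℕ) := by nlinarith
            exact_mod_cast this
          calc (n : ℝ) ^ (1 / 20 : ℝ) ≤ ((Y : ℝ) ^ (2 : ℝ)) ^ (1 / 20 : ℝ) :=
                Real.rpow_le_rpow hn0.le g8 (by norm_num)
            _ = (Y : ℝ) ^ (1 / 10 : ℝ) := by
                rw [← Real.rpow_mul hY0.le]
                norm_num
            _ ≤ (Y : ℝ) ^ (1 / 9 : ℝ) := Real.rpow_le_rpow_of_exponent_le (by linarith) (by norm_num)
      exact_mod_cast hle)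
  have hcard : (S.image (fun n => (fun _ : Fin 1 => 2 * n))).card = S.card := by
    apply card_image_of_injective
    intro a b hab
    have := congrFun hab 0
    simp only at this
    omega
  rw [hcard, pow_one] at key
  refine key.trans ?_
  rw [hNr]
  apply div_le_div_of_nonneg_left (by positivity) (pow_pos (Real.log_pos (by linarith)) _)
  exact pow_le_pow_left₀ (Real.log_nonneg (by linarith)) (Real.log_le_log hM0 (by linarith)) _

/-- from the dyadic blocks to all numbers -/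
theorem blocks (P : ℕ → Prop) [DecidablePred P] (U M₀ : ℕ) (hP : ∀ M : ℕ, M₀ ≤ M →
      ((((Icc 1 M).filter P).filter (fun n => M < 2 * n)).card : ℝ) ≤ 2 * M / Real.log M ^ (U + 1)) :
    ∃ N₀ : ℕ, ∀ N : ℕ, N₀ ≤ N → (((Icc 1 N).filter P).card : ℝ) ≤ N / Real.log N ^ U := by
  classical
  obtain ⟨n1, h1⟩ := Pool.Agent.H373R2.T7.ev_L' (2 * (4 * 2 ^ (U + 1)) + 2)
  obtain ⟨n2, h2⟩ := Filter.eventually_atTop.1 (Pool.Agent.Y614.GJ.Core.ev_log (U + 1) (s := 1 / 2) (by norm_num) 1)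
  refine ⟨(M₀ + 2) ^ 2 + n1 + n2 + 2, fun N hN => ?_⟩
  have hL := h1 N (by omega)
  obtain ⟨-, hLs⟩ := h2 N (by omega)
  obtain ⟨L, hLd⟩ : ∃ L, L = Real.log (N : ℝ) := ⟨_, rfl⟩
  rw [← hLd] at hL hLs ⊢
  have h2U : (0 : ℝ) < 4 * 2 ^ (U + 1) := by positivity
  have hL2 : 2 ≤ L := by linarith
  have hL0 : 0 < L := by linarith
  have hN2 : (2 : ℝ) ≤ N := by exact_mod_cast (by omega : 2 ≤ N)
  have hN0 : (0 : ℝ) < N := by linarith
  have hsM : (M₀ : ℝ) + 2 ≤ √(N : ℝ) := by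
    apply Real.le_sqrt_of_sq_le
    exact_mod_cast (by omega : (M₀ + 2) ^ 2 ≤ N)
  have main : ∀ M : ℕ, M ≤ N → (((Icc 1 M).filter P).card : ℝ) ≤ √(N : ℝ) + 4 * M * 2 ^ (U + 1) / L ^ (U + 1) := by
    intro M
    induction M using Nat.strong_induction_on with
    | _ M ih =>
      intro hMN
      have hMr : (M : ℝ) ≤ N := by exact_mod_cast hMN
      rcases le_or_gt (M : ℝ) (√(N : ℝ)) with hs | hs
      · have e1 : (((Icc 1 M).filter P).card : ℝ) ≤ M := by
          have := card_filter_le (Icc 1 M) P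
          rw [Nat.card_Icc, Nat.add_sub_cancel] at this
          exact_mod_cast this
        have e2 : 0 ≤ 4 * (M : ℝ) * 2 ^ (U + 1) / L ^ (U + 1) := by positivity
        linarith
      · have hM2 : (2 : ℝ) < M := by
          have : (0 : ℝ) ≤ M₀ := Nat.cast_nonneg _
          linarith
        have hMM : M₀ ≤ M := by
          have : (M₀ : ℝ) ≤ M := by linarith
          exact_mod_cast this
        have hM2' : 2 < M := by exact_mod_cast hM2
        have hM0 : (0 : ℝ) < M := by linarith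
        have hlogM : L ≤ 2 * Real.log M := by
          have e3 : (N : ℝ) ≤ (M : ℝ) ^ 2 := by
            have := Real.sq_sqrt hN0.le
            nlinarith [Real.sqrt_nonneg (N : ℝ)]
          have e4 := Real.log_le_log hN0 e3
          rw [Real.log_pow, ← hLd] at e4
          exact_mod_cast e4
        have hlogM0 : 0 < Real.log M := by linarith
        have hb := hP M hMM
        have hih := ih (M / 2) (by omega) (by omega)
        have hsub : (Icc 1 M).filter P ⊆ (Icc 1 (M / 2)).filter P ∪ ((Icc 1 M).filter P).filter (fun n => M < 2 * n) := by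
          intro n hn
          rw [mem_union, mem_filter, mem_filter]
          rw [mem_filter, mem_Icc] at hn
          rcases le_or_gt (2 * n) M with h | h
          · left
            rw [mem_Icc]
            exact ⟨⟨hn.1.1, by omega⟩, hn.2⟩
          · right
            exact ⟨by rw [mem_filter, mem_Icc]; exact hn, h⟩
        have hc1 := (card_le_card hsub).trans (card_union_le _ _)
        have hc2 : (((Icc 1 M).filter P).card : ℝ) ≤ (((Icc 1 (M / 2)).filter P).card : ℝ) +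
            ((((Icc 1 M).filter P).filter (fun n => M < 2 * n)).card : ℝ) := by exact_mod_cast hc1
        have hhalf : ((M / 2 : ℕ) : ℝ) ≤ M / 2 := Nat.cast_div_le
        have e5 : 2 * (M : ℝ) / Real.log M ^ (U + 1) ≤ 2 * M * 2 ^ (U + 1) / L ^ (U + 1) := by
          rw [div_le_div_iff₀ (by positivity) (by positivity)]
          have e6 : L ^ (U + 1) ≤ 2 ^ (U + 1) * Real.log M ^ (U + 1) := by
            rw [← mul_pow]
            exact pow_le_pow_left₀ hL0.le hlogM _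
          calc 2 * (M : ℝ) * L ^ (U + 1) ≤ 2 * M * (2 ^ (U + 1) * Real.log M ^ (U + 1)) := by gcongr
            _ = _ := by ring
        have e7 : 4 * ((M / 2 : ℕ) : ℝ) * 2 ^ (U + 1) / L ^ (U + 1) ≤ 2 * M * 2 ^ (U + 1) / L ^ (U + 1) := by
          apply div_le_div_of_nonneg_right _ (by positivity)
          apply mul_le_mul_of_nonneg_right _ (by positivity)
          linarith
        have e8 : 4 * (M : ℝ) * 2 ^ (U + 1) / L ^ (U + 1) = 2 * M * 2 ^ (U + 1) / L ^ (U + 1) + 2 * M * 2 ^ (U + 1) / L ^ (U + 1) := by ring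
        linarith
  refine (main N le_rfl).trans ?_
  have e1 : √(N : ℝ) ≤ N / (2 * L ^ U) := by
    rw [le_div_iff₀ (by positivity)]
    have e2 : 2 * L ^ U ≤ √(N : ℝ) := by
      calc 2 * L ^ U ≤ L * L ^ U := by gcongr
        _ = L ^ (U + 1) := by ring
        _ ≤ (N : ℝ) ^ (1 / 2 : ℝ) := hLs
        _ = √(N : ℝ) := (Real.sqrt_eq_rpow _).symm
    calc √(N : ℝ) * (2 * L ^ U) ≤ √(N : ℝ) * √(N : ℝ) := mul_le_mul_of_nonneg_left e2 (Real.sqrt_nonneg _)
      _ = N := Real.mul_self_sqrt hN0.le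
  have e3 : 4 * (N : ℝ) * 2 ^ (U + 1) / L ^ (U + 1) ≤ N / (2 * L ^ U) := by
    rw [div_le_div_iff₀ (by positivity) (by positivity)]
    calc 4 * (N : ℝ) * 2 ^ (U + 1) * (2 * L ^ U) = N * ((2 * (4 * 2 ^ (U + 1))) * L ^ U) := by ring
      _ ≤ N * (L * L ^ U) := by
          apply mul_le_mul_of_nonneg_left _ hN0.le
          apply mul_le_mul_of_nonneg_right _ (by positivity)
          linarith
      _ = N * L ^ (U + 1) := by ring
  calc √(N : ℝ) + 4 * (N : ℝ) * 2 ^ (U + 1) / L ^ (U + 1) ≤ N / (2 * L ^ U) + N / (2 * L ^ U) := add_le_add e1 e3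
    _ = N / L ^ U := by field_simp; ring

/-- **Theorem.** (1) For every even `h ≥ 2` there is `c > 0` such that for every `U` and all large `N`, for all but at most
`N / log ^ U N` of the `n ≤ N` with `3 ∣ h` or `2 n ≢ h (mod 3)` there are at least `c √n / log ^ 3 n` partitions
`2 n = p + q` into primes `p ≠ q` with `√(2 n) < p < 4 √(2 n)` such that `p + h` has at most two prime factors, all of them
`≥ n ^ (1 / 20)`.

(2) For all `h ≥ 1` and `k` there is `c > 0` such that for all `D`, `U`, `ρ > 0`, all large `N` and all `Y` with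
`N ^ (1 / 3 + ρ) ≤ Y` and `2 Y log ^ D N ≤ N`, the following holds for all but at most `N ^ k / log ^ U N` of the vectors
`m ∈ {1, ..., N} ^ k`: for ALL vectors `a` of integers `0 < |a i| ≤ log ^ D N` for which there is no local obstruction, there are
at least `c Y / log ^ (k + 2) N` primes `Y < p ≤ 2 Y` for which `p + h` has at most two prime factors, all of them
`≥ Y ^ (1 / 9)`, and all the numbers `|a i p + m i|` are primes. -/
theorem result :
    (∀ h : ℕ, 1 ≤ h → 2 ∣ h → ∃ c : ℝ, 0 < c ∧ ∀ U : ℕ, ∃ N₀ : ℕ, ∀ N : ℕ, N₀ ≤ N →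
      (Nat.card {n : ℕ // (1 ≤ n ∧ n ≤ N) ∧ (3 ∣ h ∨ (2 * n) % 3 ≠ h % 3) ∧
        ¬ c * (√(n : ℝ) / Real.log n ^ 3) ≤ (partitions h n : ℝ)} : ℝ) ≤ N / Real.log N ^ U) ∧
    (∀ h k : ℕ, 1 ≤ h → ∃ c : ℝ, 0 < c ∧ ∀ (D U : ℕ) (ρ : ℝ), 0 < ρ →
      ∃ N₀ : ℕ, ∀ N : ℕ, N₀ ≤ N → ∀ Y : ℕ, (N : ℝ) ^ (1 / 3 + ρ) ≤ Y → 2 * (Y : ℝ) * Real.log N ^ D ≤ N →
      (Nat.card {m : Fin k → ℕ // (∀ i, 1 ≤ m i ∧ m i ≤ N) ∧
        ¬ ∀ a : Fin k → ℤ, (∀ i, a i ≠ 0 ∧ |(a i : ℝ)| ≤ Real.log N ^ D) → Unobstructed h a m →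
          c * (Y / Real.log N ^ (k + 2)) ≤ (count h Y a m : ℝ)} : ℝ) ≤ (N : ℝ) ^ k / Real.log N ^ U) := by
  classical
  constructor
  · intro h hh h2
    obtain ⟨c, hc, hblock⟩ := block h hh h2
    refine ⟨c, hc, fun U => ?_⟩
    obtain ⟨M₀, hM₀⟩ := hblock (U + 1)
    obtain ⟨N₀, hN₀⟩ := blocks (fun n => (3 ∣ h ∨ (2 * n) % 3 ≠ h % 3) ∧
        ¬ c * (√(n : ℝ) / Real.log n ^ 3) ≤ (partitions h n : ℝ)) U M₀ (by
      intro M hM
      apply hM₀ M hM
      intro n hn
      rw [mem_filter, mem_filter, mem_Icc] at hn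
      exact ⟨hn.2, hn.1.1.2, hn.1.2.1, hn.1.2.2⟩)
    refine ⟨N₀, fun N hN => le_trans (le_of_eq ?_) (hN₀ N hN)⟩
    congr 1
    rw [← Nat.card_eq_finsetCard]
    apply Nat.card_congr
    refine Equiv.subtypeEquivRight (fun n => ?_)
    rw [mem_filter, mem_Icc]
  · intro h k hh
    obtain ⟨c, hc, hmain⟩ := main h hh k
    refine ⟨c, hc, fun D U ρ hρ => ?_⟩
    obtain ⟨N₀, h0⟩ := hmain D U (min ρ (1 / 4)) (lt_min hρ (by norm_num)) (min_le_right _ _)
    refine ⟨N₀ + 1, fun N hN Y hY1 hY2 => ?_⟩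
    have hN1 : (1 : ℝ) ≤ N := by exact_mod_cast (by omega : 1 ≤ N)
    have key := h0 N (by omega) Y (le_trans (by
      apply Real.rpow_le_rpow_of_exponent_le hN1
      linarith [min_le_left ρ (1 / 4)]) hY1) hY2
      ((Fintype.piFinset (fun _ : Fin k => Icc 1 N)).filter (fun m => ¬ ∀ a : Fin k → ℤ, (∀ i, a i ≠ 0 ∧ |(a i : ℝ)| ≤ Real.log N ^ D) →
        Unobstructed h a m → c * (Y / Real.log N ^ (k + 2)) ≤ (count h Y a m : ℝ))) (filter_subset _ _)
      (fun m hm => (mem_filter.1 hm).2)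
    refine le_trans (le_of_eq ?_) key
    congr 1
    rw [← Nat.card_eq_finsetCard]
    apply Nat.card_congr
    refine Equiv.subtypeEquivRight (fun m => ?_)
    rw [mem_filter, Fintype.mem_piFinset]
    simp only [mem_Icc]

end Pool.Agent.Results.MP_b58c63_nt.ShortChenPrime
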